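import Mathlib
import Pool.Agent.MD717.Main
import Pool.Agent.MD717.Cycle

set_option autoImplicit false

namespace Pool.Agent.Results.MP_717ee4_co.DimBound

/-- Every finite connected simple graph `G` with minimum degree at least two that is not a cycle
satisfies `dim G ≤ 2 c(G) - 1` and `edim G ≤ 2 c(G) - 1`, where `c(G) = |E| - |V| + 1`. -/
theorem result {V : Type*} [Fintype V] [DecidableEq V] (G : SimpleGraph V) [DecidableRel G.Adj]
    (hconn : G.Connected) (hdeg : ∀ v : V, 2 ≤ G.degree v)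
    (hcycle : ∀ n : ℕ, IsEmpty (SimpleGraph.cycleGraph n ≃g G)) :
    (∃ S : Finset V,
      (S.card : ℤ) ≤ 2 * ((G.edgeFinset.card : ℤ) - (Fintype.card V : ℤ) + 1) - 1 ∧
      ∀ x y : V, x ≠ y → ∃ s ∈ S, G.dist s x ≠ G.dist s y) ∧
    (∃ S : Finset V,
      (S.card : ℤ) ≤ 2 * ((G.edgeFinset.card : ℤ) - (Fintype.card V : ℤ) + 1) - 1 ∧
      ∀ a b c d : V, G.Adj a b → G.Adj c d → s(a, b) ≠ s(c, d) →
        ∃ s ∈ S, min (G.dist s a) (G.dist s b) ≠ min (G.dist s c) (G.dist s d)) :=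
  Pool.Agent.MD717.main hconn hdeg
    (Pool.Agent.MD717.exists_three_le_degree hconn hdeg hcycle)

end Pool.Agent.Results.MP_717ee4_co.DimBound
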